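import Mathlib
import Pool.Agent.H203.ZeroDist

/-!
# MP_b1555f_an, Q2: the limit distribution of the zeros of the Bergman polynomials of the regular
triangle and of the square

For `N = 3, 4` and every `k < N` the normalised root-counting measures of the reduced polynomials
`q_{j,k}` converge weak-* to the measure `μ_N` which the exterior conformal map of the `N`-gon
determines. All objects of the question (the orthonormal system, the exterior conformal map with its
capacity, the measure `μ_N`) are shown to exist, and `μ_N` is unique.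
-/

open Polynomial MeasureTheory Filter Topology Bornology

namespace Pool.Agent.Results.MP_b1555f_an.ZeroDistribution

/-- The regular `N`-gon `G_N` (without its boundary) whose vertices are the `N`-th roots of unity. -/
def regularPolygon (N : ℕ) : Set ℂ := interior (convexHull ℝ {z : ℂ | z ^ N = 1})

/-- The Bergman inner product `⟨p,q⟩ = ∬ p(z) conj(q(z)) dA(z)` over `G_N`. -/
noncomputable def bergmanInner (N : ℕ) (p q : ℂ[X]) : ℂ :=
  ∫ z in regularPolygon N, p.eval z * (starRingEnd ℂ) (q.eval z)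

/-- `p 0, p 1, …` is the system of orthonormal polynomials with positive leading coefficients
(the one produced by Gram–Schmidt from `1, z, z², …`). -/
structure IsBergmanSystem (N : ℕ) (p : ℕ → ℂ[X]) : Prop where
  natDegree_eq : ∀ m, (p m).natDegree = m
  leading_pos : ∀ m, (p m).leadingCoeff.im = 0 ∧ 0 < (p m).leadingCoeff.re
  orthonormal : ∀ m l, bergmanInner N (p m) (p l) = if m = l then 1 else 0

/-- `φ` is the conformal map of the complement of the closed `N`-gon onto `{|w| > 1}` which fixes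
infinity and has the derivative `1 / c > 0` there, that is `φ(z) / z → 1 / c`; so `c` is the
logarithmic capacity of the closed `N`-gon. -/
structure IsExteriorMap (N : ℕ) (φ : ℂ → ℂ) (c : ℝ) : Prop where
  cap_pos : 0 < c
  holomorphic : DifferentiableOn ℂ φ (closure (regularPolygon N))ᶜ
  bijective : Set.BijOn φ (closure (regularPolygon N))ᶜ {w : ℂ | 1 < ‖w‖}
  at_infinity : Tendsto (fun z => φ z / z) (cobounded ℂ) (𝓝 (1 / (c : ℂ)))

/-- `μ` is the measure `μ_N`: a probability measure on `[0,1]` with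
`∫ log |z^N - x| dμ(x) = N log |φ(z)| + N log c` for `|z| > 1`. -/
structure IsMuN (N : ℕ) (φ : ℂ → ℂ) (c : ℝ) (μ : Measure ℝ) : Prop where
  prob : IsProbabilityMeasure μ
  carried : μ (Set.Icc 0 1)ᶜ = 0
  potential : ∀ z : ℂ, 1 < ‖z‖ →
    ∫ x, Real.log ‖z ^ N - (x : ℂ)‖ ∂μ = N * Real.log ‖φ z‖ + N * Real.log c

theorem result (N : ℕ) (hN : N = 3 ∨ N = 4) :
    (∃ (φ : ℂ → ℂ) (c : ℝ), IsExteriorMap N φ c) ∧
    (∃ p : ℕ → ℂ[X], IsBergmanSystem N p) ∧
    ∀ (φ : ℂ → ℂ) (c : ℝ), IsExteriorMap N φ c →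
      (∃! μ : Measure ℝ, IsMuN N φ c μ) ∧
      ∀ μ : Measure ℝ, IsMuN N φ c μ → ∀ p : ℕ → ℂ[X], IsBergmanSystem N p → ∀ k < N,
        ∃ q : ℕ → ℝ[X],
          (∀ j, p (j * N + k) = X ^ k * ((q j).map (algebraMap ℝ ℂ)).comp (X ^ N) ∧
            (q j).natDegree = j ∧ Multiset.card (q j).roots = j ∧
            ∀ x ∈ (q j).roots, 0 < x ∧ x < 1) ∧
          ∀ f : ℝ → ℝ, ContinuousOn f (Set.Icc 0 1) →
            Tendsto (fun j : ℕ => (1 / (j : ℝ)) * ((q j).roots.map f).sum) atTop
              (𝓝 (∫ x, f x ∂μ)) := by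
  have hN0 : 0 < N := by omega
  have hcl : closure (regularPolygon N) = convexHull ℝ {z : ℂ | z ^ N = 1} := H203.closure_gon hN
  have hcpt : IsCompact (closure (regularPolygon N)) := by rw [hcl]; exact H203.hull_compact hN0
  have h0mem : (0 : ℂ) ∈ regularPolygon N := H203.zero_mem_gon hN
  have hball : closure (regularPolygon N) ⊆ Metric.closedBall 0 1 := by
    rw [hcl]; exact H203.hull_sub_ball hN0
  have hgood : ∃ ω : ℂ, H766R2.Berg.Good N ω := by
    rcases hN with rfl | rfl
    · exact ⟨_, H766R2.Berg.good3⟩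
    · exact ⟨_, H766R2.Berg.good4⟩
  obtain ⟨ω, hω⟩ := hgood
  have hsys : ∃ p : ℕ → ℂ[X], IsBergmanSystem N p := by
    obtain ⟨p, hp⟩ := H766R2.Berg.exists_system hω
    exact ⟨p, hp.natDegree_eq, hp.leading_pos, hp.orthonormal⟩
  -- the zeros of the reduced polynomials
  have hzeros : ∀ p : ℕ → ℂ[X], IsBergmanSystem N p → ∀ k < N,
      ∃ (q : ℕ → ℝ[X]) (t : ℕ → ℕ → ℝ), (∀ j, (q j).natDegree = j) ∧
        (∀ j, p (j * N + k) = X ^ k * ((q j).map (algebraMap ℝ ℂ)).comp (X ^ N)) ∧
        (∀ j, q j = C (q j).leadingCoeff * ∏ ν ∈ Finset.range j, (X - C (t j ν))) ∧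
        ∀ j ν, ν < j → 0 < t j ν ∧ t j ν < 1 := by
    intro p hp k hk
    obtain ⟨q, t, h1, h2, h3, h4⟩ := H766R2.Berg.main hω (p := p)
      ⟨hp.natDegree_eq, hp.leading_pos, hp.orthonormal⟩ hk
    refine ⟨q, t, h1, h2, h3, fun j ν hν => ?_⟩
    obtain ⟨a1, a2, a3, a4⟩ := h4 j ν hν
    exact ⟨a1.trans a2, a3.trans a4⟩
  refine ⟨?_, hsys, ?_⟩
  · have hint : (0 : ℂ) ∈ interior (closure (regularPolygon N)) :=
      interior_mono subset_closure (by
        rw [show interior (regularPolygon N) = regularPolygon N from isOpen_interior.interior_eq]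
        exact h0mem)
    obtain ⟨φ, c, h1, h2, h3, h4⟩ := H203.exists_extMap hcpt
      (by rw [hcl]; exact convex_convexHull ℝ _) hint
    exact ⟨φ, c, h1, h2, h3, h4⟩
  · intro φ c hφ
    have hE := H203.ext_of_bij hcpt (subset_closure h0mem) hφ.cap_pos hφ.holomorphic hφ.bijective
      hφ.at_infinity
    refine ⟨?_, ?_⟩
    · obtain ⟨p, hp⟩ := hsys
      obtain ⟨q, t, h1, h2, h3, h4⟩ := hzeros p hp 0 hN0
      obtain ⟨μ, hμ, hm⟩ := H203.mu_exists (k := 0) hN hE ⟨hp.natDegree_eq, hp.orthonormal⟩ h1 h2 h3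
        (fun j ν hν => ⟨(h4 j ν hν).1.le, (h4 j ν hν).2.le⟩)
      refine ⟨μ, ⟨hμ.prob, hμ.carried, hm⟩, ?_⟩
      intro ν hν
      exact H203.mu_unique ⟨hν.prob, hν.carried⟩ hμ (by omega) hE hball hν.potential hm
    · intro μ hμ p hp k hk
      obtain ⟨q, t, h1, h2, h3, h4⟩ := hzeros p hp k hk
      have hroots : ∀ j, (q j).roots = (Multiset.range j).map (t j) := by
        intro j
        have hlc : (q j).leadingCoeff ≠ 0 := by
          intro h0
          have hq0 := leadingCoeff_eq_zero.mp h0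
          have hpz : p (j * N + k) = 0 := by rw [h2, hq0]; simp
          have := hp.orthonormal (j * N + k) (j * N + k)
          rw [bergmanInner, hpz] at this
          simp at this
        rw [h3 j, roots_C_mul _ hlc]
        have := roots_multiset_prod_X_sub_C ((Multiset.range j).map (t j))
        rw [Multiset.map_map] at this
        exact this
      refine ⟨q, fun j => ⟨h2 j, h1 j, by rw [hroots]; simp, ?_⟩, ?_⟩
      · intro x hx
        rw [hroots, Multiset.mem_map] at hx
        obtain ⟨ν, hν, rfl⟩ := hx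
        exact h4 j ν (Multiset.mem_range.mp hν)
      · intro f hf
        have key := H203.mu_limit (k := k) hN hE ⟨hp.natDegree_eq, hp.orthonormal⟩ h1 h2 h3
          (fun j ν hν => ⟨(h4 j ν hν).1.le, (h4 j ν hν).2.le⟩) ⟨hμ.prob, hμ.carried⟩ hμ.potential hf
        refine key.congr fun j => ?_
        rw [hroots, Multiset.map_map]
        rfl

end Pool.Agent.Results.MP_b1555f_an.ZeroDistribution
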